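import Pool.Agent.V11263.PCu.Sc
import Pool.Agent.V11263.PCu.KSv

/-!
# Differential operators with parameters in a number field: few have rational solutions modulo most primes

`L_ω = L_0 + ω L_1 + ⋯ + ω ^ d L_d`, where the `L_k` are arbitrary differential operators over a commutative ring `𝒪` with
a derivation `δ` (for instance `𝒪 = 𝓞 K [x]`, `δ = d/dx`, `K` a number field) and `ω = ι(a_1) b_1 + ⋯ + ι(a_h) b_h`
with integers `a_i` of `K` and constants `b_i` of `𝒪` (`h = 1`, `b_1 = 1`: all `ω` in `𝓞 K`; in general `𝒪` may contain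
transcendental constants).

Modulo a prime ideal `P` over `p`, of any degree, at most `d p / (e - g)` constants `ω` are such that `L_ω` has `e`
independent rational solutions (`e = n`: a full basis; `e = 1`: one rational solution), if some member of the family,
perhaps the member at infinity `L_d`, has at most `g` of them; for example if `L_d` has order at most `g` and is not zero
modulo `P`. So at most `C X ^ θ`, `θ > d / (e - g)`, of the about `X ^ (h [K : ℚ])` vectors `a` with all conjugates at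
most `X` have few bad prime ideals.
-/

set_option autoImplicit false

namespace Pool.Agent.Results.MP_aa40d3_nt.NumberFieldPencils

open Finset NumberField Ideal

/-- A reduction modulo `p` of the differential ring `(𝒪, δ)`: a field `F` of characteristic `p` with a derivation `D`
with `D x = 1` for some `x` and `D ^ p = 0`, and a homomorphism `φ : 𝒪 → F` of differential rings. For example
`𝒪 = 𝓞 K [x]`, `δ = d/dx`, `P` is a prime ideal of `𝓞 K` over `p` and `F = (𝓞 K / P)(x)`, `D = d/dx`. -/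
structure Reduction (𝒪 : Type) [CommRing 𝒪] (δ : Derivation ℤ 𝒪 𝒪) (p : ℕ) where
  F : Type
  [field : Field F]
  [char : CharP F p]
  D : Derivation ℤ F F
  x : F
  D_x : D x = 1
  D_pow : ∀ f, (⇑D)^[p] f = 0
  φ : 𝒪 →+* F
  φ_δ : ∀ a, φ (δ a) = D (φ a)

attribute [instance] Reduction.field Reduction.char

variable {𝒪 : Type} [CommRing 𝒪] {δ : Derivation ℤ 𝒪 𝒪} {p n d : ℕ}

/-- The operator `∑ b_i D ^ i` has `e` solutions which are linearly independent over the constants. -/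
def Sol (ρ : Reduction 𝒪 δ p) (b : Fin (n + 1) → ρ.F) (e : ℕ) : Prop :=
  ∃ y : Fin e → ρ.F, (∀ j, ∑ i : Fin (n + 1), b i * (⇑ρ.D)^[(i : ℕ)] (y j) = 0) ∧
    ∀ a : Fin e → ρ.F, (∀ j, ρ.D (a j) = 0) → ∑ j, a j * y j = 0 → ∀ j, a j = 0

/-- The coefficients of the reduction of `L_0 + c L_1 + ⋯ + c ^ d L_d`, where `L_k = ∑ B k i δ ^ i`. -/
def member (ρ : Reduction 𝒪 δ p) (B : Fin (d + 1) → Fin (n + 1) → 𝒪) (c : ρ.F) : Fin (n + 1) → ρ.F :=
  fun i => ∑ k : Fin (d + 1), c ^ (k : ℕ) * ρ.φ (B k i)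

/-- The coefficients of the reduction of the member at infinity `L_d`. -/
def top (ρ : Reduction 𝒪 δ p) (B : Fin (d + 1) → Fin (n + 1) → 𝒪) : Fin (n + 1) → ρ.F :=
  fun i => ρ.φ (B (Fin.last d) i)

/-- The prime ideals of the ring of integers of `K` over `p`. -/
noncomputable def primesOver (K : Type) [Field K] [NumberField K] (p : ℕ) : Finset (Ideal (𝓞 K)) :=
  IsDedekindDomain.primesOverFinset (Ideal.span {(p : ℤ)}) (𝓞 K)

open Classical in
/-- The sum of `log N(P) / p` over the primes `N₀ < p ≤ Y` and the prime ideals `P` over `p` without the property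
`G`. -/
noncomputable def badSum (K : Type) [Field K] [NumberField K] (N₀ : ℕ)
    (G : ∀ p : ℕ, p.Prime → N₀ < p → ∀ P : Ideal (𝓞 K), P ∈ primesOver K p → Prop) (Y : ℝ) : ℝ :=
  ∑ p ∈ Icc 1 ⌊Y⌋₊ with p.Prime ∧ N₀ < p,
    ∑ P ∈ primesOver K p with ∃ (h₁ : p.Prime) (h₂ : N₀ < p) (h₃ : P ∈ primesOver K p), ¬ G p h₁ h₂ P h₃,
      Real.log (absNorm P) / p

/-- `𝒪`, `δ`, `ι`, constants `b_1, …, b_h` of `𝒪`, and a reduction for each prime ideal `P` over a prime `p > N₀` in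
which the `b_i` are linearly independent over `𝓞 K / P`. -/
structure Setup (K : Type) [Field K] [NumberField K] (h N₀ : ℕ) where
  𝒪 : Type
  [ring : CommRing 𝒪]
  δ : Derivation ℤ 𝒪 𝒪
  ι : 𝓞 K →+* 𝒪
  b : Fin h → 𝒪
  δ_ι : ∀ ω, δ (ι ω) = 0
  δ_b : ∀ i, δ (b i) = 0
  red : ∀ p : ℕ, p.Prime → N₀ < p → ∀ P : Ideal (𝓞 K), P ∈ primesOver K p → Reduction 𝒪 δ p
  red_b : ∀ p h₁ h₂ P h₃ (a : Fin h → 𝓞 K), (red p h₁ h₂ P h₃).φ (∑ i, ι (a i) * b i) = 0 → ∀ i, a i ∈ P

attribute [instance] Setup.ring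

/-- For a property `G` of the constants `c` of the reductions (for instance that the member of a family with the
parameter `c` has `e` independent rational solutions): for all `X ≥ 2` at most `C X ^ θ` vectors `a` of elements of
`𝓞 K` with all conjugates at most `X` in absolute value are such that the sum of `log N(P) / p` over the prime ideals
`P` over primes `N₀ < p ≤ X ^ θ` for which the reduction of `ι(a_1) b_1 + ⋯ + ι(a_h) b_h` does not have the property
`G` is at most `(1 - β) [K : ℚ] θ log X + L`. -/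
def FewGood {K : Type} [Field K] [NumberField K] {h N₀ : ℕ} (S : Setup K h N₀)
    (G : ∀ p h₁ h₂ P h₃, (S.red p h₁ h₂ P h₃).F → Prop) (β θ L C : ℝ) : Prop :=
  ∀ X : ℝ, 2 ≤ X → (Set.ncard {a : Fin h → 𝓞 K | (∀ i, ∀ σ : K →+* ℂ, ‖σ (a i)‖ ≤ X) ∧
    badSum K N₀ (fun p h₁ h₂ P h₃ => G p h₁ h₂ P h₃ ((S.red p h₁ h₂ P h₃).φ (∑ i, S.ι (a i) * S.b i))) (X ^ θ) ≤
      (1 - β) * Module.finrank ℚ K * θ * Real.log X + L} : ℝ) ≤ C * X ^ θ

/-- In every reduction some member of the family, with a parameter in the field of constants or the member at infinity,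
does not have `g + 1` independent rational solutions. -/
def Regular {K : Type} [Field K] [NumberField K] {h N₀ : ℕ} (S : Setup K h N₀)
    (B : Fin (d + 1) → Fin (n + 1) → S.𝒪) (g : ℕ) : Prop :=
  ∀ p h₁ h₂ P h₃, ¬ Sol (S.red p h₁ h₂ P h₃) (top (S.red p h₁ h₂ P h₃) B) (g + 1) ∨
    ∃ c, (S.red p h₁ h₂ P h₃).D c = 0 ∧
      ¬ Sol (S.red p h₁ h₂ P h₃) (member (S.red p h₁ h₂ P h₃) B c) (g + 1)

/-- from constants to vectors over the number field -/
lemma nfs (K : Type) [Field K] [NumberField K] {h n' d' N₀ : ℕ} (hd : 1 ≤ d') {β θ : ℝ} (L : ℝ) (hβ0 : 0 < β)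
    (hβ1 : β ≤ 1) (hθ0 : 0 < θ) (hθ : (d' : ℝ) < n' * β ^ 2 * θ) :
    ∃ C : ℝ, ∀ (S : Setup K h N₀) (G : ∀ p h₁ h₂ P h₃, (S.red p h₁ h₂ P h₃).F → Prop),
      (∀ p h₁ h₂ P h₃, ∀ T : Finset (S.red p h₁ h₂ P h₃).F,
        (∀ c ∈ T, (S.red p h₁ h₂ P h₃).D c = 0 ∧ G p h₁ h₂ P h₃ c) → T.card * n' ≤ d' * p) →
      FewGood S G β θ L C := by
  classical
  obtain ⟨C, hC⟩ := V11263.PCu.nfv_sieve (K := K) h n' d' N₀ hd L hβ0 hβ1 hθ0 hθ
  refine ⟨C, fun S₀ G hG X hX => ?_⟩
  have hkey := hC (fun p P a => ∀ (h₁ : p.Prime) (h₂ : N₀ < p) (h₃ : P ∈ primesOver K p),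
    G p h₁ h₂ P h₃ ((S₀.red p h₁ h₂ P h₃).φ (∑ i, S₀.ι (a i) * S₀.b i))) ?_ X hX
  · have hb : ∀ a : Fin h → 𝓞 K, badSum K N₀ (fun p h₁ h₂ P h₃ =>
          G p h₁ h₂ P h₃ ((S₀.red p h₁ h₂ P h₃).φ (∑ i, S₀.ι (a i) * S₀.b i))) (X ^ θ) =
        V11263.PCu.badV N₀ (fun p P a => ∀ (h₁ : p.Prime) (h₂ : N₀ < p) (h₃ : P ∈ primesOver K p),
          G p h₁ h₂ P h₃ ((S₀.red p h₁ h₂ P h₃).φ (∑ i, S₀.ι (a i) * S₀.b i))) a (X ^ θ) := by
      intro a
      unfold badSum V11263.PCu.badV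
      refine Finset.sum_congr rfl fun p _ => ?_
      refine Finset.sum_congr ?_ (fun _ _ => rfl)
      ext P
      simp only [Finset.mem_filter]
      refine and_congr_right fun _ => ?_
      constructor
      · rintro ⟨h₁, h₂, h₃, h₄⟩ h
        exact h₄ (h h₁ h₂ h₃)
      · intro h
        by_contra hcon
        exact h fun h₁ h₂ h₃ => by
          by_contra h₄
          exact hcon ⟨h₁, h₂, h₃, h₄⟩
    simp only [hb]
    exact hkey
  · intro p hp hN P hP S hS hS2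
    have hinj : Set.InjOn (fun a : Fin h → 𝓞 K => (S₀.red p hp hN P hP).φ (∑ i, S₀.ι (a i) * S₀.b i)) S := by
      intro a ha b hb hab
      refine hS2 a ha b hb ?_
      refine S₀.red_b p hp hN P hP (fun i => a i - b i) ?_
      have h1 : ∑ i, S₀.ι (a i - b i) * S₀.b i =
          ∑ i, S₀.ι (a i) * S₀.b i - ∑ i, S₀.ι (b i) * S₀.b i := by
        rw [← Finset.sum_sub_distrib]
        refine Finset.sum_congr rfl fun i _ => ?_
        rw [map_sub]
        ring
      rw [h1, map_sub]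
      exact sub_eq_zero.2 hab
    have h2 := hG p hp hN P hP
      (S.image fun a : Fin h → 𝓞 K => (S₀.red p hp hN P hP).φ (∑ i, S₀.ι (a i) * S₀.b i)) ?_
    · rwa [Finset.card_image_of_injOn hinj] at h2
    · intro c hc
      obtain ⟨a, ha, rfl⟩ := Finset.mem_image.1 hc
      refine ⟨?_, hS a ha hp hN hP⟩
      rw [← (S₀.red p hp hN P hP).φ_δ]
      have h3 : S₀.δ (∑ i, S₀.ι (a i) * S₀.b i) = 0 := by
        rw [map_sum]
        refine Finset.sum_eq_zero fun i _ => ?_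
        rw [Derivation.leibniz, S₀.δ_b, S₀.δ_ι]
        simp
      rw [h3, map_zero]

/-- **Theorem.**
1. Let `K` be a number field, `1 ≤ d`, `g < e`, `0 < β ≤ 1` and `θ > d / ((e - g) β ^ 2)`. There is `C` such that for all
setups and all operators `L_0, …, L_d` over `𝒪` of order at most `n` with `Regular`: `FewGood` holds for the property
that the member `L_0 + c L_1 + ⋯ + c ^ d L_d` has `e` independent rational solutions.
2. `Regular` holds with `g = o` if `L_d` has order at most `o` and is not zero in the reductions. -/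
theorem result :
    (∀ (K : Type) [Field K] [NumberField K] (h n d g e : ℕ), 1 ≤ d → g < e →
      ∀ (β θ L : ℝ) (N₀ : ℕ), 0 < β → β ≤ 1 → 0 < θ → (d : ℝ) < ((e - g : ℕ) : ℝ) * β ^ 2 * θ →
      ∃ C : ℝ, ∀ (S : Setup K h N₀) (B : Fin (d + 1) → Fin (n + 1) → S.𝒪), Regular S B g →
        FewGood S (fun p h₁ h₂ P h₃ c => Sol (S.red p h₁ h₂ P h₃) (member (S.red p h₁ h₂ P h₃) B c) e) β θ L C) ∧
    (∀ (K : Type) [Field K] [NumberField K] (h N₀ n d o : ℕ) (S : Setup K h N₀)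
      (B : Fin (d + 1) → Fin (n + 1) → S.𝒪),
      (∀ p h₁ h₂ P h₃, (∃ i, (S.red p h₁ h₂ P h₃).φ (B (Fin.last d) i) ≠ 0) ∧
        ∀ i : Fin (n + 1), o < i → (S.red p h₁ h₂ P h₃).φ (B (Fin.last d) i) = 0) → Regular S B o) := by
  refine ⟨?_, ?_⟩
  · intro K _ _ h n d g e hd hg β θ L N₀ hβ0 hβ1 hθ0 hθ
    obtain ⟨C, hC⟩ := nfs K (h := h) (n' := e - g) (d' := d) (N₀ := N₀) hd L hβ0 hβ1 hθ0 hθ
    refine ⟨C, fun S B h₀ => ?_⟩
    refine hC S (fun p h₁ h₂ P h₃ c => Sol (S.red p h₁ h₂ P h₃) (member (S.red p h₁ h₂ P h₃) B c) e) ?_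
    intro p h₁ h₂ P h₃ T hT
    have := Fact.mk h₁
    exact V11263.PCu.loc3 (p := p) (S.red p h₁ h₂ P h₃).D_x (S.red p h₁ h₂ P h₃).D_pow hd hg
      (fun k i => (S.red p h₁ h₂ P h₃).φ (B k i)) (h₀ p h₁ h₂ P h₃) T hT
  · intro K _ _ h N₀ n d o S B hB p h₁ h₂ P h₃
    left
    rintro ⟨y, hy, hind⟩
    obtain ⟨hne, ho⟩ := hB p h₁ h₂ P h₃
    have h := V11263.PCu.order_le' (D := (S.red p h₁ h₂ P h₃).D.toLinearMap.toAddMonoidHom) (o := o) ?_
      (top (S.red p h₁ h₂ P h₃) B) hne ho y hy hind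
    · omega
    · intro a b
      have h1 := (S.red p h₁ h₂ P h₃).D.leibniz a b
      rw [smul_eq_mul, smul_eq_mul] at h1
      show (S.red p h₁ h₂ P h₃).D (a * b) =
        (S.red p h₁ h₂ P h₃).D a * b + a * (S.red p h₁ h₂ P h₃).D b
      rw [h1]
      ring

end Pool.Agent.Results.MP_aa40d3_nt.NumberFieldPencils
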