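import Pool.Agent.TH924.PC.Eig
import Pool.Agent.TH924.PC.Dev
import Pool.Agent.V11001.KM.Near
import Pool.Agent.V11153.Shell

/-!
# Accessory parameters near the powers of almost every number: all families of operators at once

Let `L_q = L_0 + q L_1 + ⋯ + q^(d-1) L_(d-1) + q^d r(x)` with arbitrary differential operators `L_k` of order at most
`n > d` with coefficients in `ℤ[x]` and a polynomial `r ≠ 0`; for `d = 1` this is an operator `L_0` with an accessory
parameter `q`. A prime `p` is bad for `L_q` if the reduction of `L_q` modulo `p` has no full basis of rational solutions.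
Let `ν m / log m → ∞` (for example `ν m = m`). For almost every real `x > 1`, for ALL these families of operators at once,
all `θ < 1 - d / n`, all `ρ > d / n` and all `K`, all but finitely many integers `q` with `| |q| - x ^ (ν m) | ≤ x ^ (θ ν m)`
for some `m` have the property that the sum of `log p / p` over the primes `p ≤ |q| ^ ρ` that are bad for `L_q` is larger
than `K`; so `L_q` does not satisfy the hypothesis of the problem with few exceptional primes. With larger `ρ` the bad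
primes even have a positive logarithmic density on `[1, |q| ^ ρ]`.
-/

set_option autoImplicit false

namespace Pool.Agent.Results.MP_aa40d3_nt.ParametersNearPowers

open Polynomial Finset Filter
open Pool.Agent.V11001.KM (Fast Near)

/-- `p` is a prime and the reduction modulo `p` of `∑ b i ∂^i` has a full basis of rational
solutions: `n` solutions in `F_p(x)` that are linearly independent over the constants. This is the
condition on `p` in the problem. -/
def Full (n : ℕ) (b : Fin (n + 1) → ℤ[X]) (p : ℕ) : Prop :=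
  ∃ _ : Fact p.Prime, ∃ D : Derivation ℤ (RatFunc (ZMod p)) (RatFunc (ZMod p)),
    D (RatFunc.X : RatFunc (ZMod p)) = 1 ∧
    ∃ y : Fin n → RatFunc (ZMod p),
      (∀ j : Fin n, ∑ i : Fin (n + 1),
          Polynomial.aeval (RatFunc.X : RatFunc (ZMod p)) (b i) * (⇑D)^[(i : ℕ)] (y j) = 0) ∧
      ∀ c : Fin n → RatFunc (ZMod p), (∀ j, D (c j) = 0) →
        ∑ j : Fin n, c j * y j = 0 → ∀ j, c j = 0

/-- The coefficients of `L_q = ∑_{k < d} q^k L_k + q^d r`, where `L_k = ∑ b k i ∂^i`. -/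
noncomputable def family {n d : ℕ} (b : Fin d → Fin (n + 1) → ℤ[X]) (r : ℤ[X]) (q : ℤ) :
    Fin (n + 1) → ℤ[X] :=
  fun i => (∑ k : Fin d, C (q ^ (k : ℕ)) * b k i) + if i = 0 then C (q ^ d) * r else 0

open Classical in
/-- The sum of `log p / p` over the primes `p ≤ Y` for which the reduction of `∑ b i ∂^i` does not
have a full basis of rational solutions. -/
noncomputable def badSum (n : ℕ) (b : Fin (n + 1) → ℤ[X]) (Y : ℝ) : ℝ :=
  ∑ p ∈ Icc 1 ⌊Y⌋₊ with p.Prime ∧ ¬ Full n b p, Real.log p / p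

/-- the exponent `1 / (1 + (β - a)² / (a (1 - a)))`, `a = d / n`; it is `d / n` for `β = 1` and smaller than one for
`β > d / n` -/
noncomputable def sExp (d n : ℕ) (β : ℝ) : ℝ :=
  1 / (1 + (β - d / n) ^ 2 / ((d / n) * (1 - d / n)))

lemma badSum_mono (n : ℕ) (b : Fin (n + 1) → ℤ[X]) {Y Z : ℝ} (h : Y ≤ Z) : badSum n b Y ≤ badSum n b Z := by
  classical
  unfold badSum
  apply Finset.sum_le_sum_of_subset_of_nonneg
  · apply Finset.filter_subset_filter
    exact Finset.Icc_subset_Icc_right (Nat.floor_le_floor h)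
  · intro p hp _
    have : 1 ≤ p := (Finset.mem_Icc.1 (Finset.mem_filter.1 hp).1).1
    have h1 : (1 : ℝ) ≤ p := by exact_mod_cast this
    exact div_nonneg (Real.log_nonneg h1) (by linarith)

/-- the starting theorem `AccessoryParameterSieve` -/
lemma sieve (n d : ℕ) (hd : 1 ≤ d) (hdn : d < n) (β θ K : ℝ) (hβ : (d : ℝ) / n < β)
    (hβ1 : β ≤ 1) (hθ : 1 < θ * (1 + (β - d / n) ^ 2 / ((d / n) * (1 - d / n)))) (N₀ : ℕ) :
    ∃ C : ℝ, ∀ (b : Fin d → Fin (n + 1) → ℤ[X]) (r : ℤ[X]),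
      (∀ p : ℕ, p.Prime → N₀ < p → ∃ i : ℕ, ¬ (p : ℤ) ∣ r.coeff i) →
      ∀ X : ℝ, 2 ≤ X →
        (Set.ncard {q : ℤ | |(q : ℝ)| ≤ X ∧
          badSum n (family b r q) (X ^ θ) ≤ (1 - β) * θ * Real.log X + K} : ℝ) ≤ C * X ^ θ := by
  obtain ⟨C, hC⟩ := Pool.Agent.TH924.PC.deviate (P₁ := N₀) hd hdn K hβ hβ1 hθ
  refine ⟨C, fun b r hr X hX => ?_⟩
  refine hC (fun p q => Full n (family b r q) p) ?_ X hX
  intro p hp hpN T hT
  have hpF : Fact p.Prime := ⟨hp⟩
  refine Pool.Agent.TH924.PC.classes_le hd b r ?_ T ?_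
  · obtain ⟨i, hi⟩ := hr p hp hpN
    intro h0
    apply hi
    have h1 := congrArg (fun P => P.coeff i) h0
    simp only [coeff_map, eq_intCast, coeff_zero] at h1
    exact (ZMod.intCast_zmod_eq_zero_iff_dvd _ _).1 h1
  · intro t ht
    obtain ⟨q, hq, hF⟩ := hT t ht
    obtain ⟨_, hF'⟩ := hF
    exact ⟨q, hq, hF'⟩

lemma fin_int (P : ℤ → Prop) (X : ℝ) : {q : ℤ | P q ∧ |(q : ℝ)| ≤ X}.Finite := by
  refine (Set.finite_Icc (-⌈X⌉) ⌈X⌉).subset fun q hq => ?_
  have h1 := abs_le.1 hq.2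
  have h2 := Int.le_ceil X
  constructor
  · have : (-(⌈X⌉ : ℝ)) ≤ (q : ℝ) := by linarith [h1.1]
    exact_mod_cast this
  · have : (q : ℝ) ≤ (⌈X⌉ : ℝ) := by linarith [h1.2]
    exact_mod_cast this

/-- a nonzero polynomial is divisible by finitely many primes only -/
lemma primes_of_ne {r : ℤ[X]} (hr : r ≠ 0) : ∃ N₀ : ℕ, ∀ p : ℕ, p.Prime → N₀ < p → ∃ i : ℕ, ¬ (p : ℤ) ∣ r.coeff i := by
  obtain ⟨i, hi⟩ : ∃ i, r.coeff i ≠ 0 := by
    by_contra hcon
    push Not at hcon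
    exact hr (Polynomial.ext fun i => by rw [hcon i, coeff_zero])
  refine ⟨(r.coeff i).natAbs, fun p _ hp => ⟨i, fun hdiv => ?_⟩⟩
  have h1 : p ∣ (r.coeff i).natAbs := by
    have := Int.natAbs_dvd_natAbs.2 hdiv
    simpa using this
  exact absurd (Nat.le_of_dvd (Int.natAbs_pos.2 hi) h1) (not_le.2 hp)

/-- the integers `q` for which `L_q` has few bad primes -/
def Few {n d : ℕ} (b : Fin d → Fin (n + 1) → ℤ[X]) (r : ℤ[X]) (c ρ K : ℝ) : Set ℤ :=
  {q : ℤ | q ≠ 0 ∧ badSum n (family b r q) (|(q : ℝ)| ^ ρ) ≤ c * Real.log |(q : ℝ)| + K}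

lemma one_le_abs {q : ℤ} (hq : q ≠ 0) : (1 : ℝ) ≤ |(q : ℝ)| := by
  have := Int.one_le_abs hq
  exact_mod_cast this

lemma Few.mono {n d : ℕ} {b : Fin d → Fin (n + 1) → ℤ[X]} {r : ℤ[X]} {c c' ρ ρ' K K' : ℝ} (hc : c ≤ c') (hρ : ρ' ≤ ρ)
    (hK : K ≤ K') : Few b r c ρ K ⊆ Few b r c' ρ' K' := by
  rintro q ⟨h0, h1⟩
  have h2 := one_le_abs h0
  refine ⟨h0, (badSum_mono n _ (Real.rpow_le_rpow_of_exponent_le h2 hρ)).trans (h1.trans ?_)⟩
  have := mul_le_mul_of_nonneg_right hc (Real.log_nonneg h2)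
  linarith

/-- the count of these integers -/
lemma count {n d : ℕ} (hd : 1 ≤ d) (hdn : d < n) {β : ℝ} (hβ : (d : ℝ) / n < β) (hβ1 : β ≤ 1)
    (b : Fin d → Fin (n + 1) → ℤ[X]) {r : ℤ[X]} (hr : r ≠ 0) {ρ : ℝ} (hρ : sExp d n β < ρ) (K : ℝ) (hK : 0 ≤ K)
    (ε : ℝ) (hε : 0 < ε) : ∃ C : ℝ, ∀ X : ℝ, 1 ≤ X →
      {q | q ∈ Few b r ((1 - β) * sExp d n β) ρ K ∧ |(q : ℝ)| ≤ X}.Finite ∧
      (({q | q ∈ Few b r ((1 - β) * sExp d n β) ρ K ∧ |(q : ℝ)| ≤ X}.ncard : ℕ) : ℝ) ≤ C * X ^ (sExp d n β + ε) := by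
  obtain ⟨N₀, hN₀⟩ := primes_of_ne hr
  have hd0 : (0 : ℝ) < d := by exact_mod_cast hd
  have hn0 : (0 : ℝ) < n := by exact_mod_cast (by omega : 0 < n)
  have ha0 : (0 : ℝ) < (d : ℝ) / n := by positivity
  have ha1 : (d : ℝ) / n < 1 := by
    rw [div_lt_one hn0]
    exact_mod_cast hdn
  set a : ℝ := (d : ℝ) / n with ha
  set m : ℝ := 1 + (β - a) ^ 2 / (a * (1 - a)) with hm
  have hm1 : 1 < m := by
    have : 0 < (β - a) ^ 2 / (a * (1 - a)) := by
      apply div_pos (by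
        have : 0 < β - a := by linarith
        positivity)
      exact mul_pos ha0 (by linarith)
    linarith
  have hs : sExp d n β = 1 / m := rfl
  have hs0 : 0 < 1 / m := by positivity
  rw [hs] at hρ ⊢
  set θ' : ℝ := 1 / m + min ε ((ρ - 1 / m) / 2) with hθ'
  have hmin : 0 < min ε ((ρ - 1 / m) / 2) := lt_min hε (by linarith)
  have hθ'1 : 1 / m < θ' := by linarith
  have hθ'2 : θ' ≤ 1 / m + ε := by linarith [min_le_left ε ((ρ - 1 / m) / 2)]
  have hθ'3 : θ' < ρ := by linarith [min_le_right ε ((ρ - 1 / m) / 2)]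
  have hcond : 1 < θ' * m := by
    have : 1 / m * m = 1 := by field_simp
    nlinarith
  obtain ⟨C, hC⟩ := sieve n d hd hdn β θ' K hβ hβ1 hcond N₀
  have hθ'0 : 0 < θ' := by linarith
  -- for large `X` the range of the primes is contained in the range of the sum
  obtain ⟨X1, hX1⟩ : ∃ X1 : ℝ, ∀ X : ℝ, X1 ≤ X → (2 * X) ^ θ' ≤ X ^ ρ := by
    have h1 : Tendsto (fun X : ℝ => X ^ (ρ - θ')) atTop atTop := tendsto_rpow_atTop (by linarith)
    obtain ⟨X1, h2⟩ := ((h1.eventually_ge_atTop ((2 : ℝ) ^ θ')).and (eventually_ge_atTop 1)).exists_forall_of_atTop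
    refine ⟨X1, fun X hX => ?_⟩
    obtain ⟨h3, h4⟩ := h2 X hX
    have hX0 : 0 < X := by linarith
    rw [Real.mul_rpow (by norm_num) hX0.le]
    calc (2 : ℝ) ^ θ' * X ^ θ' ≤ X ^ (ρ - θ') * X ^ θ' :=
          mul_le_mul_of_nonneg_right h3 (Real.rpow_nonneg hX0.le _)
      _ = X ^ ρ := by
          rw [← Real.rpow_add hX0]
          congr 1
          ring
  obtain ⟨M, hM⟩ := Pool.Agent.V11153.Shell.count_shells (Few b r ((1 - β) * (1 / m)) ρ K) (fun q : ℤ => |(q : ℝ)|)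
    (σ := θ') (X0 := max 1 X1) (C := |C| * 2 ^ θ') hθ'0 (le_max_left _ _) (fun X => fin_int _ X) (by
      intro X hX
      have hX1' : 1 ≤ X := (le_max_left _ _).trans hX
      have hr1 := hX1 X ((le_max_right _ _).trans hX)
      have hX0 : 0 < X := by linarith
      have h3 := hC b r hN₀ (2 * X) (by linarith)
      have hsub : {q : ℤ | q ∈ Few b r ((1 - β) * (1 / m)) ρ K ∧ X < |(q : ℝ)| ∧ |(q : ℝ)| ≤ 2 * X} ⊆
          {q : ℤ | |(q : ℝ)| ≤ 2 * X ∧
            badSum n (family b r q) ((2 * X) ^ θ') ≤ (1 - β) * θ' * Real.log (2 * X) + K} := by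
        rintro q ⟨⟨hq0, hq1⟩, hq2, hq3⟩
        refine ⟨hq3, (badSum_mono n _ ?_).trans (hq1.trans ?_)⟩
        · exact hr1.trans (Real.rpow_le_rpow hX0.le hq2.le (by linarith))
        · have hl1 : Real.log |(q : ℝ)| ≤ Real.log (2 * X) := Real.log_le_log (by linarith) hq3
          have hl0 : 0 ≤ Real.log |(q : ℝ)| := Real.log_nonneg (by linarith)
          have h5 : (1 - β) * (1 / m) * Real.log |(q : ℝ)| ≤ (1 - β) * θ' * Real.log (2 * X) := by
            apply mul_le_mul _ hl1 hl0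
            · exact mul_nonneg (by linarith) (by linarith)
            · exact mul_le_mul_of_nonneg_left hθ'1.le (by linarith)
          linarith
      have hfin : {q : ℤ | |(q : ℝ)| ≤ 2 * X ∧
            badSum n (family b r q) ((2 * X) ^ θ') ≤ (1 - β) * θ' * Real.log (2 * X) + K}.Finite := by
        refine (fin_int (fun _ => True) (2 * X)).subset fun q hq => ⟨trivial, hq.1⟩
      have h4 : (({q : ℤ | q ∈ Few b r ((1 - β) * (1 / m)) ρ K ∧ X < |(q : ℝ)| ∧ |(q : ℝ)| ≤ 2 * X}.ncard : ℕ) : ℝ) ≤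
          C * (2 * X) ^ θ' :=
        le_trans (by exact_mod_cast Set.ncard_le_ncard hsub hfin) h3
      refine h4.trans ?_
      rw [Real.mul_rpow (by norm_num) hX0.le, ← mul_assoc]
      apply mul_le_mul_of_nonneg_right _ (Real.rpow_nonneg hX0.le _)
      exact mul_le_mul_of_nonneg_right (le_abs_self C) (by positivity))
  refine ⟨max M 0, fun X hX => ⟨(hM X hX).1, (hM X hX).2.trans ?_⟩⟩
  calc M * X ^ θ' ≤ max M 0 * X ^ θ' := mul_le_mul_of_nonneg_right (le_max_left _ _) (Real.rpow_nonneg (by linarith) _)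
    _ ≤ max M 0 * X ^ (1 / m + ε) :=
        mul_le_mul_of_nonneg_left (Real.rpow_le_rpow_of_exponent_le hX hθ'2) (le_max_right _ _)

instance : Countable ℤ[X] := by
  rw [← Cardinal.mk_le_aleph0_iff]
  exact Polynomial.cardinalMk_le_max.trans (max_le Cardinal.mk_le_aleph0 le_rfl)

lemma sExp_nonneg {d n : ℕ} (hd : 1 ≤ d) (hdn : d < n) (β : ℝ) : 0 < sExp d n β := by
  have hd0 : (0 : ℝ) < d := by exact_mod_cast hd
  have hn0 : (0 : ℝ) < n := by exact_mod_cast (by omega : 0 < n)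
  have ha0 : (0 : ℝ) < (d : ℝ) / n := by positivity
  have ha1 : (d : ℝ) / n < 1 := by
    rw [div_lt_one hn0]
    exact_mod_cast hdn
  unfold sExp
  have h1 : 0 ≤ (β - d / n) ^ 2 / ((d : ℝ) / n * (1 - d / n)) :=
    div_nonneg (sq_nonneg _) (mul_nonneg ha0.le (by linarith))
  positivity

lemma sExp_cont (d n : ℕ) (hd : 1 ≤ d) (hdn : d < n) : Continuous (sExp d n) := by
  have hd0 : (0 : ℝ) < d := by exact_mod_cast hd
  have hn0 : (0 : ℝ) < n := by exact_mod_cast (by omega : 0 < n)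
  have ha0 : (0 : ℝ) < (d : ℝ) / n := by positivity
  have ha1 : (d : ℝ) / n < 1 := by
    rw [div_lt_one hn0]
    exact_mod_cast hdn
  unfold sExp
  refine Continuous.div continuous_const ?_ fun β => ?_
  · exact continuous_const.add (((continuous_id.sub continuous_const).pow 2).div_const _)
  · have h1 : 0 ≤ (β - d / n) ^ 2 / ((d : ℝ) / n * (1 - d / n)) :=
      div_nonneg (sq_nonneg _) (mul_nonneg ha0.le (by linarith))
    positivity

lemma sExp_anti {d n : ℕ} (hd : 1 ≤ d) (hdn : d < n) {β β' : ℝ} (h : (d : ℝ) / n < β) (h' : β ≤ β') :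
    sExp d n β' ≤ sExp d n β := by
  have hd0 : (0 : ℝ) < d := by exact_mod_cast hd
  have hn0 : (0 : ℝ) < n := by exact_mod_cast (by omega : 0 < n)
  have ha0 : (0 : ℝ) < (d : ℝ) / n := by positivity
  have ha1 : (d : ℝ) / n < 1 := by
    rw [div_lt_one hn0]
    exact_mod_cast hdn
  have hpos : 0 < (d : ℝ) / n * (1 - d / n) := mul_pos ha0 (by linarith)
  unfold sExp
  apply one_div_le_one_div_of_le
  · have h1 : 0 ≤ (β - d / n) ^ 2 / ((d : ℝ) / n * (1 - d / n)) :=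
      div_nonneg (sq_nonneg _) hpos.le
    positivity
  · have h2 : (β - d / n) ^ 2 ≤ (β' - d / n) ^ 2 :=
      pow_le_pow_left₀ (by linarith) (by linarith) 2
    have := div_le_div_of_nonneg_right h2 hpos.le
    linarith

/-- the data of a family: the operators, `r`, and a natural number -/
abbrev Data (n d : ℕ) : Type := (Fin d → Fin (n + 1) → ℤ[X]) × {r : ℤ[X] // r ≠ 0} × ℕ

/-- the sets for the covering theorem -/
def Fam (n d : ℕ) (β : ℝ) (j : Data n d) : Set ℤ :=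
  Few j.1 j.2.1.1 ((1 - β) * sExp d n β) (sExp d n β + 1 / ((j.2.2 : ℝ) + 1)) j.2.2

lemma fam_of {n d : ℕ} {β ρ K : ℝ} (b : Fin d → Fin (n + 1) → ℤ[X]) {r : ℤ[X]} (hr : r ≠ 0)
    (hρ : sExp d n β < ρ) : ∃ i : ℕ, Few b r ((1 - β) * sExp d n β) ρ K ⊆ Fam n d β (b, ⟨r, hr⟩, i) := by
  obtain ⟨j, hj⟩ := exists_nat_ge (max K (1 / (ρ - sExp d n β)))
  have hjK : K ≤ j := (le_max_left _ _).trans hj
  have hjρ : 1 / ((j : ℝ) + 1) ≤ ρ - sExp d n β := by
    have h1 : 0 < ρ - sExp d n β := by linarith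
    have h2 : 1 / (ρ - sExp d n β) ≤ (j : ℝ) + 1 := by linarith [(le_max_right K (1 / (ρ - sExp d n β))).trans hj]
    rw [div_le_iff₀ h1] at h2
    rw [div_le_iff₀ (by positivity)]
    linarith
  exact ⟨j, Few.mono le_rfl (by linarith) hjK⟩

/-- **Theorem.** Let `ν m / log m → ∞` and let `B` be a countable set of real numbers. For `1 ≤ d < n` and
`d / n < β ≤ 1` put `s = sExp d n β = 1 / (1 + (β - a)² / (a (1 - a)))`, `a = d / n` (so `s = d / n` for `β = 1`, and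
`s < 1`).
(1) For `θ < 1` there is a set `E` of Hausdorff dimension at most `s / (1 - θ)` such that for each `x > 1` outside `E`,
each positive `y` in `B`, ALL operators `L_0, …, L_(d-1)` of order at most `n` over `ℤ[x]`, all `r ≠ 0`, all `ρ > s` and
all `K`: all but finitely many integers `q ≠ 0` with `| |q| - y x ^ (ν m) | ≤ x ^ (θ ν m)` for some `m` have the property
that the sum of `log p / p` over the primes `p ≤ |q| ^ ρ` for which the reduction modulo `p` of `L_q` does not have a full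
basis of rational solutions is larger than `(1 - β) s log |q| + K`.
(2) For almost every real `x > 1` this holds for all `d < n`, all `β` and all `θ < 1 - s` at once. -/
theorem result (ν : ℕ → ℝ) (hν : Fast ν) (B : Set ℝ) (hB : B.Countable) :
    (∀ (n d : ℕ), 1 ≤ d → d < n → ∀ β : ℝ, (d : ℝ) / n < β → β ≤ 1 → ∀ θ : ℝ, θ < 1 →
      ∃ E : Set ℝ, dimH E ≤ ENNReal.ofReal (sExp d n β / (1 - θ)) ∧
        ∀ x : ℝ, 1 < x → x ∉ E → ∀ y ∈ B, 0 < y →
          ∀ (b : Fin d → Fin (n + 1) → ℤ[X]) (r : ℤ[X]), r ≠ 0 → ∀ ρ K : ℝ, sExp d n β < ρ →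
            {q : ℤ | q ∈ Few b r ((1 - β) * sExp d n β) ρ K ∧ Near ν θ y x |(q : ℝ)|}.Finite) ∧
    (∀ᵐ x : ℝ, 1 < x → ∀ (n d : ℕ), 1 ≤ d → d < n → ∀ β : ℝ, (d : ℝ) / n < β → β ≤ 1 →
      ∀ θ : ℝ, θ < 1 - sExp d n β → ∀ y ∈ B, 0 < y →
        ∀ (b : Fin d → Fin (n + 1) → ℤ[X]) (r : ℤ[X]), r ≠ 0 → ∀ ρ K : ℝ, sExp d n β < ρ →
          {q : ℤ | q ∈ Few b r ((1 - β) * sExp d n β) ρ K ∧ Near ν θ y x |(q : ℝ)|}.Finite) ∧
    (∀ (n d : ℕ), 1 ≤ d → d < n → sExp d n 1 = d / n ∧ ∀ β : ℝ, (d : ℝ) / n < β → sExp d n β < 1) := by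
  classical
  refine ⟨fun n d hd hdn β hβ hβ1 θ hθ => ?_, ?_, fun n d hd hdn => ⟨?_, fun β hβ => ?_⟩⟩
  · obtain ⟨E, h1, h2⟩ := Pool.Agent.V11001.KM.family (fun q : ℤ => |(q : ℝ)|) hν (sExp_nonneg hd hdn β).le hθ B hB
      (Fam n d β) (fun j ε hε => count hd hdn hβ hβ1 j.1 j.2.1.2 (by
        have : (0 : ℝ) < 1 / ((j.2.2 : ℝ) + 1) := by positivity
        linarith) _ (Nat.cast_nonneg _) ε hε)
    refine ⟨E, h1, fun x hx hxE y hy hy0 b r hr ρ K hρ => ?_⟩
    obtain ⟨i, hi⟩ := fam_of (K := K) b hr hρ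
    refine (h2 x hx hxE y hy hy0 (b, ⟨r, hr⟩, i)).subset ?_
    rintro q ⟨hq1, hq2⟩
    exact ⟨hi hq1, hq2⟩
  · -- rational `β`
    have hq : ∀ (n d : ℕ) (t : ℚ), ∀ᵐ x : ℝ, 1 ≤ d → d < n → (d : ℝ) / n < t → (t : ℝ) ≤ 1 → 1 < x →
        ∀ θ : ℝ, θ < 1 - sExp d n t → ∀ y ∈ B, 0 < y → ∀ j : Data n d,
          {q | q ∈ Fam n d t j ∧ Near ν θ y x |(q : ℝ)|}.Finite := by
      intro n d t
      by_cases h : 1 ≤ d ∧ d < n ∧ (d : ℝ) / n < t ∧ (t : ℝ) ≤ 1
      · obtain ⟨h1, h2, h3, h4⟩ := h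
        filter_upwards [Pool.Agent.V11001.KM.ae_family (fun q : ℤ => |(q : ℝ)|) hν (sExp_nonneg h1 h2 t).le B hB
          (Fam n d t) (fun j ε hε => count h1 h2 h3 h4 j.1 j.2.1.2 (by
            have : (0 : ℝ) < 1 / ((j.2.2 : ℝ) + 1) := by positivity
            linarith) _ (Nat.cast_nonneg _) ε hε)] with x hx _ _ _ _ hx1
        exact hx hx1
      · exact Eventually.of_forall fun x g1 g2 g3 g4 => absurd ⟨g1, g2, g3, g4⟩ h
    have hall : ∀ᵐ x : ℝ, ∀ (n d : ℕ) (t : ℚ), 1 ≤ d → d < n → (d : ℝ) / n < t → (t : ℝ) ≤ 1 → 1 < x →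
        ∀ θ : ℝ, θ < 1 - sExp d n t → ∀ y ∈ B, 0 < y → ∀ j : Data n d,
          {q | q ∈ Fam n d t j ∧ Near ν θ y x |(q : ℝ)|}.Finite := by
      rw [MeasureTheory.ae_all_iff]
      intro n
      rw [MeasureTheory.ae_all_iff]
      intro d
      rw [MeasureTheory.ae_all_iff]
      exact hq n d
    filter_upwards [hall] with x hx hx1 n d hd hdn β hβ hβ1 θ hθ y hy hy0 b r hr ρ K hρ
    have hopen : IsOpen {t : ℝ | sExp d n t < min ρ (1 - θ)} :=
      isOpen_lt (sExp_cont d n hd hdn) continuous_const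
    have hmem : β ∈ {t : ℝ | sExp d n t < min ρ (1 - θ)} := lt_min hρ (by linarith)
    obtain ⟨δ, hδ, hball⟩ := Metric.isOpen_iff.1 hopen β hmem
    obtain ⟨t, ht1, ht2⟩ := exists_rat_btwn (show max ((d : ℝ) / n) (β - δ) < β from max_lt hβ (by linarith))
    have ht3 : (d : ℝ) / n < t := (le_max_left _ _).trans_lt ht1
    have ht4 : β - δ < t := (le_max_right _ _).trans_lt ht1
    have ht5 : sExp d n t < min ρ (1 - θ) := hball (by
      rw [Metric.mem_ball, Real.dist_eq, abs_lt]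
      constructor <;> linarith)
    have ht6 := (lt_min_iff.1 ht5).1
    have ht7 := (lt_min_iff.1 ht5).2
    obtain ⟨i, hi⟩ := fam_of (K := K) (β := (t : ℝ)) b hr ht6
    refine (hx n d t hd hdn ht3 (by linarith) hx1 θ (by linarith) y hy hy0 (b, ⟨r, hr⟩, i)).subset ?_
    rintro q ⟨hq1, hq2⟩
    refine ⟨hi (Few.mono ?_ le_rfl le_rfl hq1), hq2⟩
    have h1 := sExp_anti hd hdn ht3 ht2.le
    exact mul_le_mul (by linarith) h1 (sExp_nonneg hd hdn β).le (by linarith)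
  · have hd0 : (0 : ℝ) < d := by exact_mod_cast hd
    have hn0 : (0 : ℝ) < n := by exact_mod_cast (by omega : 0 < n)
    have hlt : (d : ℝ) < n := by exact_mod_cast hdn
    have h1 : (n : ℝ) - d ≠ 0 := by
      intro h
      linarith
    unfold sExp
    have h2 : (1 : ℝ) - d / n = (n - d) / n := by field_simp
    have e : 1 + (((n : ℝ) - d) / n) ^ 2 / ((d : ℝ) / n * ((n - d) / n)) = n / d := by
      field_simp
      ring
    rw [h2, e, one_div_div]
  · have hd0 : (0 : ℝ) < d := by exact_mod_cast hd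
    have hn0 : (0 : ℝ) < n := by exact_mod_cast (by omega : 0 < n)
    have ha0 : (0 : ℝ) < (d : ℝ) / n := by positivity
    have ha1 : (d : ℝ) / n < 1 := by
      rw [div_lt_one hn0]
      exact_mod_cast hdn
    have hpos : 0 < (d : ℝ) / n * (1 - d / n) := mul_pos ha0 (by linarith)
    unfold sExp
    rw [div_lt_one (by
      have h1 : 0 ≤ (β - d / n) ^ 2 / ((d : ℝ) / n * (1 - d / n)) := div_nonneg (sq_nonneg _) hpos.le
      positivity)]
    have h2 : 0 < (β - d / n) ^ 2 / ((d : ℝ) / n * (1 - d / n)) :=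
      div_pos (by
        have : 0 < β - (d : ℝ) / n := by linarith
        positivity) hpos
    linarith

end Pool.Agent.Results.MP_aa40d3_nt.ParametersNearPowers
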