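import Pool.Agent.V11263.PCu.Wr
import Pool.Agent.TH924.PC.Eig
import Pool.Agent.TH924.PC.Dev

/-!
# Operators depending polynomially on an integer: few have rational solutions modulo most primes

Let `L_q = L_0 + q L_1 + ⋯ + q ^ d L_d` with arbitrary differential operators `L_k` of order at most `n` over `ℤ[x]`,
`L_d` being of order at most `o` and not zero modulo the primes `p > N₀`. Modulo `p` at most `d p / (e - o)` classes `q`
give `e` independent rational solutions (`e = n`: a full basis). The bound uses linear pencils over the field of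
constants `F_p(x ^ p)`; it extends to arbitrary `L_d` if some member of the family has at most `g` rational solutions
modulo `p`. With the larger sieve of the starting library the integers `q` with few bad primes are sparse.
-/

set_option autoImplicit false

namespace Pool.Agent.Results.MP_aa40d3_nt.PencilsOfOperators

open Polynomial Finset

/-- The operator `∑ a i ∂^i` over `F_p(x)` has `e` solutions in `F_p(x)` that are linearly independent over the
constants. -/
def Sol {p : ℕ} [Fact p.Prime] {n : ℕ} (a : Fin (n + 1) → RatFunc (ZMod p)) (e : ℕ) : Prop :=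
  ∃ D : Derivation ℤ (RatFunc (ZMod p)) (RatFunc (ZMod p)),
    D (RatFunc.X : RatFunc (ZMod p)) = 1 ∧
    ∃ y : Fin e → RatFunc (ZMod p),
      (∀ j : Fin e, ∑ i : Fin (n + 1), a i * (⇑D)^[(i : ℕ)] (y j) = 0) ∧
      ∀ c : Fin e → RatFunc (ZMod p), (∀ j, D (c j) = 0) → ∑ j : Fin e, c j * y j = 0 → ∀ j, c j = 0

/-- The reduction modulo `p` of the coefficients. -/
noncomputable def red (p : ℕ) [Fact p.Prime] {n : ℕ} (b : Fin (n + 1) → ℤ[X]) : Fin (n + 1) → RatFunc (ZMod p) :=
  fun i => Polynomial.aeval (RatFunc.X : RatFunc (ZMod p)) (b i)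

/-- The coefficients of `L_q = ∑_{k ≤ d} q^k L_k`, where `L_k = ∑ L k i ∂^i`. -/
noncomputable def family {n d : ℕ} (L : Fin (d + 1) → Fin (n + 1) → ℤ[X]) (q : ℤ) : Fin (n + 1) → ℤ[X] :=
  fun i => ∑ k : Fin (d + 1), C (q ^ (k : ℕ)) * L k i

/-- Some member of the family has at most `g` independent rational solutions modulo `p`: the member with the parameter
`c`, a constant of `F_p(x)`, or the member at infinity `L_d`. -/
def Regular {p : ℕ} [Fact p.Prime] {n d : ℕ} (L : Fin (d + 1) → Fin (n + 1) → ℤ[X]) (g : ℕ) : Prop :=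
  ¬ Sol (red p (L (Fin.last d))) (g + 1) ∨
    ∃ (D : Derivation ℤ (RatFunc (ZMod p)) (RatFunc (ZMod p))) (c : RatFunc (ZMod p)),
      D (RatFunc.X : RatFunc (ZMod p)) = 1 ∧ D c = 0 ∧
        ¬ Sol (fun i => ∑ k : Fin (d + 1), c ^ (k : ℕ) * red p (L k) i) (g + 1)

open Classical in
/-- The sum of `log p / p` over the primes `p ≤ Y` for which the reduction of `∑ b i ∂^i` modulo `p` does not have `e`
independent rational solutions. -/
noncomputable def badSum {n : ℕ} (b : Fin (n + 1) → ℤ[X]) (e : ℕ) (Y : ℝ) : ℝ :=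
  ∑ p ∈ Icc 1 ⌊Y⌋₊ with p.Prime ∧ ¬ ∃ _ : Fact p.Prime, Sol (red p b) e, Real.log p / p

/-- `θ` is large enough for the sieve: `θ (1 + (β - α)² / (α (1 - α))) > 1`. -/
def Large (α β θ : ℝ) : Prop := 1 < θ * (1 + (β - α) ^ 2 / (α * (1 - α)))

open Pool.Agent.TH924.PC Pool.Agent.V11263.PCu in
lemma no_sol {p : ℕ} [Fact p.Prime] {n g : ℕ} (D : Derivation ℤ (RatFunc (ZMod p)) (RatFunc (ZMod p)))
    (hD : D (RatFunc.X : RatFunc (ZMod p)) = 1) (a : Fin (n + 1) → RatFunc (ZMod p)) (h : ¬ Sol a (g + 1)) :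
    Module.finrank (TH924.PC.KK D) (LinearMap.ker (opL D a)) ≤ g := by
  have := finite_K D
  refine finrank_le_of_dep _ g fun v hv hli => h ⟨D, hD, v, fun j => ?_, fun c hc hs j => ?_⟩
  · rw [← opL_apply]
    exact hv j
  · rw [Fintype.linearIndependent_iff] at hli
    have := hli (fun j => (⟨c j, hc j⟩ : TH924.PC.KK D)) (by exact hs) j
    exact congrArg Subtype.val this

open Pool.Agent.TH924.PC Pool.Agent.V11263.PCu in
/-- At most `d p / (e - g)` classes. -/
lemma classes {p : ℕ} [hp : Fact p.Prime] {n d g e : ℕ} (hd : 1 ≤ d) (hg : g < e)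
    (L : Fin (d + 1) → Fin (n + 1) → ℤ[X]) (hL : Regular (p := p) L g) (T : Finset (ZMod p))
    (hT : ∀ t ∈ T, ∃ q : ℤ, (q : ZMod p) = t ∧ Sol (red p (family L q)) e) :
    T.card * (e - g) ≤ d * p := by
  classical
  rcases T.eq_empty_or_nonempty with h | ⟨t₀, ht₀⟩
  · simp [h]
  obtain ⟨q₀, -, D, hD, -⟩ := hT t₀ ht₀
  have hfin := finite_K D
  have hfr := finrank_K D
  let P : Fin (d + 1) → Module.End (TH924.PC.KK D) (RatFunc (ZMod p)) := fun k => opL D (red p (L k))
  let κ : ZMod p → TH924.PC.KK D := fun t => ⟨RatFunc.C t, const_zmod D t⟩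
  have hκ : Function.Injective κ := by
    intro s t hst
    have h1 : (RatFunc.C s : RatFunc (ZMod p)) = RatFunc.C t := congrArg Subtype.val hst
    exact RatFunc.C_injective h1
  have hpen : ∀ (c : TH924.PC.KK D) (y : RatFunc (ZMod p)),
      pen P c y = ∑ i : Fin (n + 1), (∑ k : Fin (d + 1), (c : RatFunc (ZMod p)) ^ (k : ℕ) * red p (L k) i) *
        (⇑D)^[(i : ℕ)] y := by
    intro c y
    rw [pen_apply]
    simp only [P]
    have h1 : ∀ k : Fin (d + 1), c ^ (k : ℕ) • opL D (red p (L k)) y =
        (c : RatFunc (ZMod p)) ^ (k : ℕ) * ∑ i : Fin (n + 1), red p (L k) i * (⇑D)^[(i : ℕ)] y := by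
      intro k
      rw [opL_apply]
      show ((c ^ (k : ℕ) : TH924.PC.KK D) : RatFunc (ZMod p)) * _ = _
      push_cast
      rfl
    simp only [h1, mul_sum, sum_mul]
    rw [sum_comm]
    refine sum_congr rfl fun i _ => sum_congr rfl fun k _ => ?_
    ring
  have hN : ∀ c ∈ T.image κ, e ≤ Module.finrank (TH924.PC.KK D) (LinearMap.ker (pen P c)) := by
    intro c hc
    obtain ⟨t, ht, rfl⟩ := Finset.mem_image.1 hc
    obtain ⟨q, hq, D', hD', y, hy, hind⟩ := hT t ht
    obtain rfl : D' = D := D_unique hD' hD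
    have hqt : ((κ t : TH924.PC.KK D') : RatFunc (ZMod p)) = (q : RatFunc (ZMod p)) := by
      show (RatFunc.C t : RatFunc (ZMod p)) = _
      rw [← hq, map_intCast]
    have hmem : ∀ j, y j ∈ LinearMap.ker (pen P (κ t)) := by
      intro j
      rw [LinearMap.mem_ker, hpen, hqt, ← hy j]
      refine sum_congr rfl fun i _ => ?_
      congr 1
      simp only [red, family, map_sum, map_mul, aeval_C]
      refine sum_congr rfl fun k _ => ?_
      simp
    have hw : LinearIndependent (TH924.PC.KK D')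
        (fun j => (⟨y j, hmem j⟩ : LinearMap.ker (pen P (κ t)))) := by
      rw [Fintype.linearIndependent_iff]
      intro a ha j
      have h2 := congrArg (fun z : LinearMap.ker (pen P (κ t)) => (z : RatFunc (ZMod p))) ha
      simp only [Submodule.coe_sum, Submodule.coe_smul, Submodule.coe_zero] at h2
      exact Subtype.ext (hind (fun j => (a j : RatFunc (ZMod p))) (fun j => (a j).2) h2 j)
    have h3 := hw.fintype_card_le_finrank
    rwa [Fintype.card_fin] at h3
  have hfin' : (T.image κ).card * (e - g) ≤ d * Module.finrank (TH924.PC.KK D) (RatFunc (ZMod p)) := by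
    rcases hL with h | ⟨D', c, hD', hc, h⟩
    · exact count_inf (G := g) (N := e) hd P (no_sol D hD _ h) _ hN
    · obtain rfl : D' = D := D_unique hD' hD
      have h4 := count (G := g) (N := e) hd hg P ⊤ (fun _ _ _ => trivial) ⟨c, hc⟩ ?_ _ hN
      · rwa [finrank_top] at h4
      · have h5 := no_sol D' hD _ h
        have h6 : pen P (⟨c, hc⟩ : TH924.PC.KK D') =
            opL D' (fun i => ∑ k : Fin (d + 1), c ^ (k : ℕ) * red p (L k) i) := by
          refine LinearMap.ext fun y => ?_
          rw [hpen, opL_apply]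
        rw [h6]
        exact h5
  rw [Finset.card_image_of_injective _ hκ] at hfin'
  exact hfin'.trans (Nat.mul_le_mul_left d hfr)

/-- **Theorem.**
1. Let `1 ≤ d`, `d + g < e`, `α = d / (e - g) < β ≤ 1` and let `θ` be `Large` (for `β = 1` this is `θ > α`; there are
such `θ < 1`). There is `C` such that for all operators `L_0, …, L_d` of order at most `n` over `ℤ[x]` such that for
each prime `p > N₀` some member of the family (perhaps the one at infinity) has at most `g` independent rational
solutions modulo `p`, and all `X ≥ 2`: at most `C X ^ θ` integers `|q| ≤ X` are such that the sum of `log p / p` over the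
primes `p ≤ X ^ θ` for which `L_q = ∑ q ^ k L_k` does not have `e` independent rational solutions modulo `p` is at most
`(1 - β) θ log X + K`.
2. The condition holds with `g = o` if `L_d` has order at most `o` and is not zero modulo the primes `p > N₀`. -/
theorem result :
    (∀ (n d g e : ℕ), 1 ≤ d → d + g < e → ∀ (β θ K : ℝ) (N₀ : ℕ),
      (d : ℝ) / ((e - g : ℕ) : ℝ) < β → β ≤ 1 → Large ((d : ℝ) / ((e - g : ℕ) : ℝ)) β θ →
      ∃ C : ℝ, ∀ L : Fin (d + 1) → Fin (n + 1) → ℤ[X],
        (∀ (p : ℕ) [Fact p.Prime], N₀ < p → Regular (p := p) L g) →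
        ∀ X : ℝ, 2 ≤ X → (Set.ncard {q : ℤ | |(q : ℝ)| ≤ X ∧
          badSum (family L q) e (X ^ θ) ≤ (1 - β) * θ * Real.log X + K} : ℝ) ≤ C * X ^ θ) ∧
    (∀ (n d o : ℕ) (L : Fin (d + 1) → Fin (n + 1) → ℤ[X]) (p : ℕ) [Fact p.Prime],
      (∀ i : Fin (n + 1), o < i → L (Fin.last d) i = 0) →
      (∃ (i : Fin (n + 1)) (l : ℕ), ¬ (p : ℤ) ∣ (L (Fin.last d) i).coeff l) → Regular (p := p) L o) := by
  refine ⟨?_, ?_⟩
  · intro n d g e hd hg β θ K N₀ hβ hβ1 hθ
    obtain ⟨C, hC⟩ := Pool.Agent.TH924.PC.deviate (n := e - g) (P₁ := N₀) hd (by omega) K hβ hβ1 hθ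
    refine ⟨C, fun L hL X hX => ?_⟩
    have hcl : Pool.Agent.TH924.PC.Cls (fun p q => ∃ _ : Fact p.Prime, Sol (red p (family L q)) e) (e - g) d N₀ := ?_
    · have h := hC _ hcl X hX
      unfold badSum
      convert h
    intro p hp hpN T hT
    have hpF : Fact p.Prime := ⟨hp⟩
    refine classes hd (by omega) L (hL p hpN) T fun t ht => ?_
    obtain ⟨q, hq, _, hF⟩ := hT t ht
    exact ⟨q, hq, hF⟩
  · intro n d o L p hp ho hne
    left
    rintro ⟨D, hD, y, hy, hind⟩
    obtain ⟨i, l, hi⟩ := hne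
    have h := Pool.Agent.V11263.PCu.order_le' (D := D.toLinearMap.toAddMonoidHom) (o := o) ?_
      (red p (L (Fin.last d))) ⟨i, ?_⟩ ?_ y hy hind
    · omega
    · intro a b
      have h1 := D.leibniz a b
      rw [smul_eq_mul, smul_eq_mul] at h1
      show D (a * b) = D a * b + a * D b
      rw [h1]
      ring
    · refine Pool.Agent.TH924.PC.aeval_ne ?_
      intro h0
      apply hi
      have h1 := congrArg (fun P => P.coeff l) h0
      simp only [coeff_map, eq_intCast, coeff_zero] at h1
      exact (ZMod.intCast_zmod_eq_zero_iff_dvd _ _).1 h1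
    · intro i hi
      simp only [red]
      rw [ho i hi, map_zero]

end Pool.Agent.Results.MP_aa40d3_nt.PencilsOfOperators
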