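import Pool.Agent.TH924.PC.Eig
import Pool.Agent.TH924.PC.Dev
import Pool.Agent.Y854.GM.WinV

/-!
# Accessory parameters in windows around thin sequences: all operators have many bad primes

Let `L_q = L_0 + q L_1 + ⋯ + q^(d-1) L_(d-1) + q^d r(x)` with arbitrary differential operators `L_k` of order at most
`n > d` with coefficients in `ℤ[x]` and a polynomial `r`; for `d = 1` this is an operator `L_0` with an accessory
parameter `q`. A prime `p` is bad for `L_q` if the reduction of `L_q` modulo `p` has no full basis of rational solutions.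
Let `v ≥ 1` be a sequence with exponent of convergence at most `τ` (for `v_k = b ^ k` it is `0`, for `v_k = k ^ a` it is
`1 / a`) and `θ < 1`. For all `α > 0` outside a set of Hausdorff dimension at most `(d / n + τ) / (1 - θ)`, for each
`ρ > d / n`, each `K`, all but finitely many `k` and ALL integers `q` with `| |q| - α v_k | ≤ v_k ^ θ`, the sum of
`log p / p` over the primes `p ≤ v_k ^ ρ` that are bad for `L_q` is larger than `K`. With a larger dimension the bad
primes even have a positive logarithmic density on `[1, v_k ^ ρ]`.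
-/

set_option autoImplicit false

namespace Pool.Agent.Results.MP_aa40d3_nt.WindowsOfAccessoryParameters

open Polynomial Finset

/-- `p` is a prime and the reduction modulo `p` of `∑ b i ∂^i` has a full basis of rational
solutions: `n` solutions in `F_p(x)` that are linearly independent over the constants. This is the
condition on `p` in the problem. -/
def Full (n : ℕ) (b : Fin (n + 1) → ℤ[X]) (p : ℕ) : Prop :=
  ∃ _ : Fact p.Prime, ∃ D : Derivation ℤ (RatFunc (ZMod p)) (RatFunc (ZMod p)),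
    D (RatFunc.X : RatFunc (ZMod p)) = 1 ∧
    ∃ y : Fin n → RatFunc (ZMod p),
      (∀ j : Fin n, ∑ i : Fin (n + 1),
          Polynomial.aeval (RatFunc.X : RatFunc (ZMod p)) (b i) * (⇑D)^[(i : ℕ)] (y j) = 0) ∧
      ∀ c : Fin n → RatFunc (ZMod p), (∀ j, D (c j) = 0) →
        ∑ j : Fin n, c j * y j = 0 → ∀ j, c j = 0

/-- The coefficients of `L_q = ∑_{k < d} q^k L_k + q^d r`, where `L_k = ∑ b k i ∂^i`. -/
noncomputable def family {n d : ℕ} (b : Fin d → Fin (n + 1) → ℤ[X]) (r : ℤ[X]) (q : ℤ) :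
    Fin (n + 1) → ℤ[X] :=
  fun i => (∑ k : Fin d, C (q ^ (k : ℕ)) * b k i) + if i = 0 then C (q ^ d) * r else 0

open Classical in
/-- The sum of `log p / p` over the primes `p ≤ Y` for which the reduction of `∑ b i ∂^i` does not
have a full basis of rational solutions. -/
noncomputable def badSum (n : ℕ) (b : Fin (n + 1) → ℤ[X]) (Y : ℝ) : ℝ :=
  ∑ p ∈ Icc 1 ⌊Y⌋₊ with p.Prime ∧ ¬ Full n b p, Real.log p / p

/-- the exponent of convergence of the sequence `v` is at most `τ` -/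
def ExpLe (v : ℕ → ℝ) (τ : ℝ) : Prop := ∀ t : ℝ, τ < t → Summable (fun n : ℕ => (v n) ^ (-t))

/-- the exponent `1 / (1 + (β - a)² / (a (1 - a)))`, `a = d / n`; it is `d / n` for `β = 1` and smaller than one for
`β > d / n` -/
noncomputable def sExp (d n : ℕ) (β : ℝ) : ℝ :=
  1 / (1 + (β - d / n) ^ 2 / ((d / n) * (1 - d / n)))

lemma badSum_mono (n : ℕ) (b : Fin (n + 1) → ℤ[X]) {Y Z : ℝ} (h : Y ≤ Z) : badSum n b Y ≤ badSum n b Z := by
  classical
  unfold badSum
  apply Finset.sum_le_sum_of_subset_of_nonneg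
  · apply Finset.filter_subset_filter
    exact Finset.Icc_subset_Icc_right (Nat.floor_le_floor h)
  · intro p hp _
    have : 1 ≤ p := (Finset.mem_Icc.1 (Finset.mem_filter.1 hp).1).1
    have h1 : (1 : ℝ) ≤ p := by exact_mod_cast this
    exact div_nonneg (Real.log_nonneg h1) (by linarith)

/-- the starting theorem `AccessoryParameterSieve` -/
lemma sieve (n d : ℕ) (hd : 1 ≤ d) (hdn : d < n) (β θ K : ℝ) (hβ : (d : ℝ) / n < β)
    (hβ1 : β ≤ 1) (hθ : 1 < θ * (1 + (β - d / n) ^ 2 / ((d / n) * (1 - d / n)))) (N₀ : ℕ) :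
    ∃ C : ℝ, ∀ (b : Fin d → Fin (n + 1) → ℤ[X]) (r : ℤ[X]),
      (∀ p : ℕ, p.Prime → N₀ < p → ∃ i : ℕ, ¬ (p : ℤ) ∣ r.coeff i) →
      ∀ X : ℝ, 2 ≤ X →
        (Set.ncard {q : ℤ | |(q : ℝ)| ≤ X ∧
          badSum n (family b r q) (X ^ θ) ≤ (1 - β) * θ * Real.log X + K} : ℝ) ≤ C * X ^ θ := by
  obtain ⟨C, hC⟩ := Pool.Agent.TH924.PC.deviate (P₁ := N₀) hd hdn K hβ hβ1 hθ
  refine ⟨C, fun b r hr X hX => ?_⟩
  refine hC (fun p q => Full n (family b r q) p) ?_ X hX
  intro p hp hpN T hT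
  have hpF : Fact p.Prime := ⟨hp⟩
  refine Pool.Agent.TH924.PC.classes_le hd b r ?_ T ?_
  · obtain ⟨i, hi⟩ := hr p hp hpN
    intro h0
    apply hi
    have h1 := congrArg (fun P => P.coeff i) h0
    simp only [coeff_map, eq_intCast, coeff_zero] at h1
    exact (ZMod.intCast_zmod_eq_zero_iff_dvd _ _).1 h1
  · intro t ht
    obtain ⟨q, hq, hF⟩ := hT t ht
    obtain ⟨_, hF'⟩ := hF
    exact ⟨q, hq, hF'⟩

lemma fin_int (P : ℤ → Prop) (X : ℝ) : {q : ℤ | P q ∧ |(q : ℝ)| ≤ X}.Finite := by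
  refine (Set.finite_Icc (-⌈X⌉) ⌈X⌉).subset fun q hq => ?_
  have h1 := abs_le.1 hq.2
  have h2 := Int.le_ceil X
  constructor
  · have : (-(⌈X⌉ : ℝ)) ≤ (q : ℝ) := by linarith [h1.1]
    exact_mod_cast this
  · have : (q : ℝ) ≤ (⌈X⌉ : ℝ) := by linarith [h1.2]
    exact_mod_cast this

/-- **Theorem.** Let `1 ≤ d < n`, `d / n < β ≤ 1` and `s = 1 / (1 + (β - a)² / (a (1 - a)))`, `a = d / n` (so `s = d / n`
for `β = 1`). Let `L_0, …, L_(d-1)` be operators of order at most `n` over `ℤ[x]` and `r` a polynomial that is not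
divisible by any prime `p > N₀`. Let `v ≥ 1` be a sequence of exponent of convergence at most `τ ≥ 0` and `θ < 1`. There
is a set `E` of Hausdorff dimension at most `(s + τ) / (1 - θ)` such that for each `α > 0` outside `E`, each `ρ > s`, each
`K`, all but finitely many `k` and ALL integers `q` with `| |q| - α v_k | ≤ v_k ^ θ`, the sum of `log p / p` over the
primes `p ≤ v_k ^ ρ` for which the reduction modulo `p` of `L_q` does not have a full basis of rational solutions is larger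
than `(1 - β) s log v_k + K`. The sequences `v_k = (k + 1) ^ a` and `v_k = b ^ k` have exponent of convergence at most
`1 / a` and `0`. -/
theorem result :
    (∀ (n d : ℕ), 1 ≤ d → d < n → ∀ β : ℝ, (d : ℝ) / n < β → β ≤ 1 → ∀ (N₀ : ℕ)
      (b : Fin d → Fin (n + 1) → ℤ[X]) (r : ℤ[X]),
      (∀ p : ℕ, p.Prime → N₀ < p → ∃ i : ℕ, ¬ (p : ℤ) ∣ r.coeff i) →
      ∀ (v : ℕ → ℝ) (τ θ : ℝ), (∀ k, 1 ≤ v k) → 0 ≤ τ → ExpLe v τ → θ < 1 →
      ∃ E : Set ℝ, dimH E ≤ ENNReal.ofReal ((sExp d n β + τ) / (1 - θ)) ∧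
        ∀ α : ℝ, 0 < α → α ∉ E → ∀ ρ K : ℝ, sExp d n β < ρ → ∃ k₀ : ℕ, ∀ k : ℕ, k₀ ≤ k → ∀ q : ℤ,
          |(|(q : ℝ)|) - α * v k| ≤ (v k) ^ θ →
          (1 - β) * sExp d n β * Real.log (v k) + K < badSum n (family b r q) ((v k) ^ ρ)) ∧
    (∀ (n d : ℕ), 1 ≤ d → d < n → sExp d n 1 = d / n) ∧
    (∀ a : ℝ, 0 < a → ExpLe (fun n : ℕ => ((n : ℝ) + 1) ^ a) (1 / a)) ∧
    (∀ b : ℝ, 1 < b → ExpLe (fun n : ℕ => b ^ n) 0) := by
  classical
  refine ⟨fun n d hd hdn β hβ hβ1 N₀ b r hr v τ θ hv hτ hE hθ1 => ?_, fun n d hd hdn => ?_,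
    fun κ hκ => Pool.Agent.Y854.GM.expLe_pow κ hκ, fun b hb => Pool.Agent.Y854.GM.expLe_geom b hb⟩
  · have hd0 : (0 : ℝ) < d := by exact_mod_cast hd
    have hn0 : (0 : ℝ) < n := by exact_mod_cast (by omega : 0 < n)
    have ha0 : (0 : ℝ) < (d : ℝ) / n := by positivity
    have ha1 : (d : ℝ) / n < 1 := by
      rw [div_lt_one hn0]
      exact_mod_cast hdn
    set a : ℝ := (d : ℝ) / n with ha
    set m : ℝ := 1 + (β - a) ^ 2 / (a * (1 - a)) with hm
    have hm1 : 1 < m := by
      have : 0 < (β - a) ^ 2 / (a * (1 - a)) := by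
        apply div_pos (by positivity)
        exact mul_pos ha0 (by linarith)
      linarith
    have hs : sExp d n β = 1 / m := rfl
    have hs0 : 0 < 1 / m := by positivity
    rw [hs]
    have htv : Filter.Tendsto v Filter.atTop Filter.atTop :=
      Pool.Agent.Y854.GM.tendsto_of_expLe (fun k => lt_of_lt_of_le one_pos (hv k)) hτ hE
    have hall : ∀ j : ℕ, ∃ E : Set ℝ, dimH E ≤ ENNReal.ofReal ((1 / m + τ) / (1 - θ)) ∧
        ∀ α : ℝ, 0 < α → α ∉ E → ∃ k₀ : ℕ, ∀ k : ℕ, k₀ ≤ k →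
          ∀ q ∈ {q : ℤ | badSum n (family b r q) ((v k) ^ (1 / m + 1 / ((j : ℝ) + 1))) ≤
            (1 - β) * (1 / m) * Real.log (v k) + j}, 1 * (v k) ^ θ < |(|(q : ℝ)|) - α * v k| := by
      intro j
      set ρ : ℝ := 1 / m + 1 / ((j : ℝ) + 1) with hρ
      have hρ1 : 1 / m < ρ := by
        have : (0 : ℝ) < 1 / ((j : ℝ) + 1) := by positivity
        linarith
      refine Pool.Agent.Y854.GM.windowsV (fun k => {q : ℤ | badSum n (family b r q) ((v k) ^ ρ) ≤
        (1 - β) * (1 / m) * Real.log (v k) + j}) (fun _ q => |(q : ℝ)|) 1 hv hτ hE hs0.le hθ1 ?_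
      intro A ε hε
      set θ' : ℝ := 1 / m + min ε ((ρ - 1 / m) / 2) with hθ'
      have hmin : 0 < min ε ((ρ - 1 / m) / 2) := lt_min hε (by linarith)
      have hθ'1 : 1 / m < θ' := by linarith
      have hθ'2 : θ' ≤ 1 / m + ε := by linarith [min_le_left ε ((ρ - 1 / m) / 2)]
      have hθ'3 : θ' < ρ := by linarith [min_le_right ε ((ρ - 1 / m) / 2)]
      have hcond : 1 < θ' * m := by
        have : 1 / m * m = 1 := by field_simp
        nlinarith
      obtain ⟨C, hC⟩ := sieve n d hd hdn β θ' j hβ hβ1 hcond N₀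
      have hA0 : (0 : ℝ) ≤ A := Nat.cast_nonneg A
      -- for large `k` the range of the primes is contained in the range of the sum
      have hlarge : ∀ᶠ k : ℕ in Filter.atTop, (((A : ℝ) + 1) * v k) ^ θ' ≤ (v k) ^ ρ := by
        have h1 : Filter.Tendsto (fun k => (v k) ^ (ρ - θ')) Filter.atTop Filter.atTop :=
          (tendsto_rpow_atTop (by linarith)).comp htv
        filter_upwards [h1.eventually_ge_atTop (((A : ℝ) + 1) ^ θ')] with k hk
        have hk0 : 0 < v k := lt_of_lt_of_le one_pos (hv k)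
        rw [Real.mul_rpow (by positivity) hk0.le]
        calc ((A : ℝ) + 1) ^ θ' * (v k) ^ θ' ≤ (v k) ^ (ρ - θ') * (v k) ^ θ' :=
              mul_le_mul_of_nonneg_right hk (Real.rpow_nonneg hk0.le _)
          _ = (v k) ^ ρ := by
              rw [← Real.rpow_add hk0]
              congr 1
              ring
      obtain ⟨k₁, hk₁⟩ := (hlarge.and (htv.eventually_ge_atTop 2)).exists_forall_of_atTop
      refine ⟨|C| * ((A : ℝ) + 1) ^ θ', k₁, fun k hk => ⟨fin_int _ _, ?_⟩⟩
      obtain ⟨hr1, hr2⟩ := hk₁ k hk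
      have hk0 : 0 < v k := lt_of_lt_of_le one_pos (hv k)
      have hk1 : 1 ≤ v k := hv k
      have hX2 : 2 ≤ ((A : ℝ) + 1) * v k := by nlinarith
      have hXv : v k ≤ ((A : ℝ) + 1) * v k := by nlinarith
      have h3 := hC b r hr (((A : ℝ) + 1) * v k) hX2
      have hsub : {q : ℤ | q ∈ {q : ℤ | badSum n (family b r q) ((v k) ^ ρ) ≤
          (1 - β) * (1 / m) * Real.log (v k) + j} ∧ |(q : ℝ)| ≤ ((A : ℝ) + 1) * v k} ⊆
          {q : ℤ | |(q : ℝ)| ≤ ((A : ℝ) + 1) * v k ∧
            badSum n (family b r q) ((((A : ℝ) + 1) * v k) ^ θ') ≤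
              (1 - β) * θ' * Real.log (((A : ℝ) + 1) * v k) + j} := by
        rintro q ⟨hq1, hq2⟩
        refine ⟨hq2, (badSum_mono n _ hr1).trans (le_trans hq1 ?_)⟩
        have hl1 : Real.log (v k) ≤ Real.log (((A : ℝ) + 1) * v k) := Real.log_le_log hk0 hXv
        have hl0 : 0 ≤ Real.log (v k) := Real.log_nonneg hk1
        have h5 : (1 - β) * (1 / m) * Real.log (v k) ≤ (1 - β) * θ' * Real.log (((A : ℝ) + 1) * v k) := by
          apply mul_le_mul _ hl1 hl0
          · exact mul_nonneg (by linarith) (by linarith)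
          · exact mul_le_mul_of_nonneg_left hθ'1.le (by linarith)
        linarith
      have hfin : {q : ℤ | |(q : ℝ)| ≤ ((A : ℝ) + 1) * v k ∧
            badSum n (family b r q) ((((A : ℝ) + 1) * v k) ^ θ') ≤
              (1 - β) * θ' * Real.log (((A : ℝ) + 1) * v k) + j}.Finite := by
        refine (fin_int (fun _ => True) (((A : ℝ) + 1) * v k)).subset fun q hq => ⟨trivial, hq.1⟩
      have h4 : (({q : ℤ | q ∈ {q : ℤ | badSum n (family b r q) ((v k) ^ ρ) ≤
          (1 - β) * (1 / m) * Real.log (v k) + j} ∧ |(q : ℝ)| ≤ ((A : ℝ) + 1) * v k}.ncard : ℕ) : ℝ) ≤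
          C * (((A : ℝ) + 1) * v k) ^ θ' :=
        le_trans (by exact_mod_cast Set.ncard_le_ncard hsub hfin) h3
      refine h4.trans ?_
      rw [Real.mul_rpow (by positivity) hk0.le, ← mul_assoc]
      apply mul_le_mul
      · exact mul_le_mul_of_nonneg_right (le_abs_self C) (by positivity)
      · exact Real.rpow_le_rpow_of_exponent_le hk1 hθ'2
      · positivity
      · positivity
    choose E hE1 hE2 using hall
    refine ⟨⋃ j, E j, ?_, fun α hα hαE ρ K hρ => ?_⟩
    · rw [dimH_iUnion]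
      exact iSup_le hE1
    · obtain ⟨j, hj⟩ := exists_nat_ge (max K (1 / (ρ - 1 / m)))
      have hjK : K ≤ j := (le_max_left _ _).trans hj
      have hjρ : 1 / ((j : ℝ) + 1) ≤ ρ - 1 / m := by
        have h1 : 0 < ρ - 1 / m := by linarith
        have h2 : 1 / (ρ - 1 / m) ≤ (j : ℝ) + 1 := by linarith [(le_max_right K (1 / (ρ - 1 / m))).trans hj]
        rw [div_le_iff₀ h1] at h2
        rw [div_le_iff₀ (by positivity)]
        linarith
      obtain ⟨k₀, hk⟩ := hE2 j α hα (fun h => hαE (Set.mem_iUnion.2 ⟨j, h⟩))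
      refine ⟨k₀, fun k hk1 q hw => ?_⟩
      by_contra hcon
      push Not at hcon
      refine absurd (hk k hk1 q ?_) (not_lt.2 (by rw [one_mul]; exact hw))
      refine le_trans (badSum_mono n _ ?_) (hcon.trans ?_)
      · exact Real.rpow_le_rpow_of_exponent_le (hv k) (by linarith)
      · linarith
  · have hd0 : (0 : ℝ) < d := by exact_mod_cast hd
    have hn0 : (0 : ℝ) < n := by exact_mod_cast (by omega : 0 < n)
    have hlt : (d : ℝ) < n := by exact_mod_cast hdn
    have h1 : (n : ℝ) - d ≠ 0 := by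
      intro h
      linarith
    unfold sExp
    have h2 : (1 : ℝ) - d / n = (n - d) / n := by field_simp
    have e : 1 + (((n : ℝ) - d) / n) ^ 2 / ((d : ℝ) / n * ((n - d) / n)) = n / d := by
      field_simp
      ring
    rw [h2, e, one_div_div]

end Pool.Agent.Results.MP_aa40d3_nt.WindowsOfAccessoryParameters
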